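import Mathlib

open scoped InnerProductSpace ComplexOrder

namespace Pool.Agent.Q93.Alu

noncomputable section

variable {H : Type*} [NormedAddCommGroup H] [InnerProductSpace ℂ H] [CompleteSpace H]

/-- monotonicity of the functional calculus on vectors -/
lemma cfc_norm_le (P : H →L[ℂ] H) (_hP : IsSelfAdjoint P) (f g : ℝ → ℝ)
    (hf : ContinuousOn f (spectrum ℝ P)) (hg : ContinuousOn g (spectrum ℝ P))
    (h : ∀ t ∈ spectrum ℝ P, |f t| ≤ |g t|) (x : H) : ‖cfc f P x‖ ≤ ‖cfc g P x‖ := by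
  have key : ∀ f : ℝ → ℝ, ContinuousOn f (spectrum ℝ P) →
      ‖cfc f P x‖ ^ 2 = RCLike.re ⟪cfc (fun t => f t * f t) P x, x⟫_ℂ := by
    intro f hf
    rw [cfc_mul f f P, mul_apply_eq_comp]
    have hsa : IsSelfAdjoint (cfc f P) := cfc_predicate f P
    have h1 : ⟪cfc f P (cfc f P x), x⟫_ℂ = ⟪cfc f P x, cfc f P x⟫_ℂ := by
      have := hsa.isSymmetric (cfc f P x) x
      exact this
    rw [h1, inner_self_eq_norm_sq]
  have h2 : ‖cfc f P x‖ ^ 2 ≤ ‖cfc g P x‖ ^ 2 := by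
    rw [key f hf, key g hg, ← sub_nonneg, ← map_sub, ← inner_sub_left]
    have h3 : cfc (fun t => g t * g t) P x - cfc (fun t => f t * f t) P x
        = cfc (fun t => g t * g t - f t * f t) P x := by
      rw [cfc_sub (fun t => g t * g t) (fun t => f t * f t) P]
      rfl
    rw [h3]
    have h4 : 0 ≤ cfc (fun t => g t * g t - f t * f t) P := by
      apply cfc_nonneg
      intro t ht
      have := h t ht
      have h5 := mul_self_le_mul_self (abs_nonneg _) this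
      rw [abs_mul_abs_self, abs_mul_abs_self] at h5
      linarith
    have h5 := (ContinuousLinearMap.nonneg_iff_isPositive _).1 h4
    exact h5.re_inner_nonneg_left x
  exact le_of_sq_le_sq h2 (norm_nonneg _)

/-- scalar inequality inverting `ψ_c` -/
lemma psi_ineq {l m c p : ℝ} (hl0 : 0 ≤ l) (hl1 : l ≤ 1) (hc : 0 < c) (hcm : c ≤ m)
    (hp : 0 ≤ p) (hpm : p ≤ m) :
    c ^ l * |p - c| ≤ m ^ l * |c ^ (1 - l) * p ^ l + c ^ l * p ^ (1 - l) - 2 * c| := by
  have hl1' : 0 ≤ 1 - l := by linarith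
  have hu0 : 0 ≤ p ^ l := Real.rpow_nonneg hp _
  have hU0 : 0 ≤ p ^ (1 - l) := Real.rpow_nonneg hp _
  have hv0 : 0 < c ^ l := Real.rpow_pos_of_pos hc _
  have hV0 : 0 < c ^ (1 - l) := Real.rpow_pos_of_pos hc _
  have huU : p ^ l * p ^ (1 - l) = p := by
    rw [← Real.rpow_add' hp (by norm_num : l + (1 - l) ≠ 0)]
    norm_num
  have hvV : c ^ l * c ^ (1 - l) = c := by
    rw [← Real.rpow_add hc]; norm_num
  have hum : p ^ l ≤ m ^ l := Real.rpow_le_rpow hp hpm hl0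
  have hvm : c ^ l ≤ m ^ l := Real.rpow_le_rpow hc.le hcm hl0
  set u := p ^ l
  set v := c ^ l
  set U := p ^ (1 - l)
  set V := c ^ (1 - l)
  rcases le_total c p with h | h
  · have h1 : v ≤ u := Real.rpow_le_rpow hc.le h hl0
    have h2 : V ≤ U := Real.rpow_le_rpow hc.le h hl1'
    have h3 : 0 ≤ V * u + v * U - 2 * c := by
      rw [← hvV]; nlinarith
    rw [abs_of_nonneg (by linarith), abs_of_nonneg h3]
    calc v * (p - c) ≤ u * (V * u + v * U - 2 * c) := by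
          rw [← huU, ← hvV]; nlinarith [mul_nonneg hV0.le (sq_nonneg (u - v))]
      _ ≤ m ^ l * (V * u + v * U - 2 * c) := mul_le_mul_of_nonneg_right hum h3
  · have h1 : u ≤ v := Real.rpow_le_rpow hp h hl0
    have h2 : U ≤ V := Real.rpow_le_rpow hp h hl1'
    have h3 : V * u + v * U - 2 * c ≤ 0 := by
      rw [← hvV]; nlinarith
    rw [abs_of_nonpos (by linarith), abs_of_nonpos h3]
    calc v * -(p - c) ≤ v * -(V * u + v * U - 2 * c) := by
          apply mul_le_mul_of_nonneg_left _ hv0.le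
          nlinarith [mul_nonneg (sub_nonneg.2 h1) (sub_nonneg.2 h2)]
      _ ≤ m ^ l * -(V * u + v * U - 2 * c) := mul_le_mul_of_nonneg_right hvm (by linarith)

/-- scalar estimate near `c` -/
lemma near_ineq {s c t δ : ℝ} (hs0 : 0 ≤ s) (hs1 : s ≤ 1) (hc : 0 < c) (hδ : δ ≤ c)
    (ht : 0 ≤ t) (htc : |t - c| ≤ δ) :
    |c * t ^ (1 - s) - c ^ (1 - s) * t| ≤ 2 * c ^ (1 - s) * δ := by
  have hs1' : 0 ≤ 1 - s := by linarith
  have hu0 : 0 ≤ t ^ s := Real.rpow_nonneg ht _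
  have hU0 : 0 ≤ t ^ (1 - s) := Real.rpow_nonneg ht _
  have hv0 : 0 < c ^ s := Real.rpow_pos_of_pos hc _
  have hV0 : 0 < c ^ (1 - s) := Real.rpow_pos_of_pos hc _
  have huU : t ^ s * t ^ (1 - s) = t := by
    rw [← Real.rpow_add' ht (by norm_num : s + (1 - s) ≠ 0)]
    norm_num
  have hvV : c ^ s * c ^ (1 - s) = c := by
    rw [← Real.rpow_add hc]; norm_num
  have hU2 : t ^ (1 - s) ≤ 2 * c ^ (1 - s) := by
    have h2c : t ≤ 2 * c := by
      have := (abs_le.1 htc).2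
      linarith
    calc t ^ (1 - s) ≤ (2 * c) ^ (1 - s) := Real.rpow_le_rpow ht h2c hs1'
      _ = 2 ^ (1 - s) * c ^ (1 - s) := Real.mul_rpow (by norm_num) hc.le
      _ ≤ 2 * c ^ (1 - s) := by
        apply mul_le_mul_of_nonneg_right _ hV0.le
        calc (2 : ℝ) ^ (1 - s) ≤ 2 ^ (1 : ℝ) :=
              Real.rpow_le_rpow_of_exponent_le (by norm_num) (by linarith)
          _ = 2 := Real.rpow_one 2
  have h4 : c ^ (1 - s) * |c ^ s - t ^ s| ≤ |t - c| := by
    rcases le_total t c with h | h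
    · have h1 : t ^ s ≤ c ^ s := Real.rpow_le_rpow ht h hs0
      have h2 : t ^ (1 - s) ≤ c ^ (1 - s) := Real.rpow_le_rpow ht h hs1'
      rw [abs_of_nonneg (by linarith), abs_of_nonpos (by linarith)]
      nlinarith
    · have h1 : c ^ s ≤ t ^ s := Real.rpow_le_rpow hc.le h hs0
      have h2 : c ^ (1 - s) ≤ t ^ (1 - s) := Real.rpow_le_rpow hc.le h hs1'
      rw [abs_of_nonpos (by linarith), abs_of_nonneg (by linarith)]
      nlinarith
  have h5 : c * t ^ (1 - s) - c ^ (1 - s) * t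
      = t ^ (1 - s) * (c ^ (1 - s) * (c ^ s - t ^ s)) := by
    linear_combination (-(t ^ (1 - s))) * hvV + c ^ (1 - s) * huU
  rw [h5, abs_mul, abs_mul, abs_of_nonneg hU0, abs_of_nonneg hV0.le]
  have hδ0 : 0 ≤ δ := (abs_nonneg _).trans htc
  calc t ^ (1 - s) * (c ^ (1 - s) * |c ^ s - t ^ s|) ≤ t ^ (1 - s) * δ :=
        mul_le_mul_of_nonneg_left (h4.trans htc) hU0
    _ ≤ 2 * c ^ (1 - s) * δ := mul_le_mul_of_nonneg_right hU2 hδ0

/-- `P^s` -/
def pw (P : H →L[ℂ] H) (s : ℝ) : H →L[ℂ] H := cfc (fun t : ℝ => t ^ s) P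

lemma cont_rpow {s : ℝ} (hs : 0 ≤ s) (K : Set ℝ) : ContinuousOn (fun t : ℝ => t ^ s) K :=
  (Real.continuous_rpow_const hs).continuousOn

lemma pw_cfc (P : H →L[ℂ] H) {s : ℝ} (hs : 0 ≤ s) (h : ℝ → ℝ)
    (hh : Continuous h) (x : H) : pw P s (cfc h P x) = cfc (fun t : ℝ => t ^ s * h t) P x := by
  rw [cfc_mul (fun t : ℝ => t ^ s) h P (cont_rpow hs _) hh.continuousOn]
  rfl

lemma P_cfc (P : H →L[ℂ] H) (hP : IsSelfAdjoint P) (h : ℝ → ℝ)
    (hh : Continuous h) (x : H) : P (cfc h P x) = cfc (fun t : ℝ => t * h t) P x := by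
  rw [cfc_mul (fun t : ℝ => t) h P continuousOn_id hh.continuousOn]
  rw [cfc_id' ℝ P]
  rfl

lemma smul_cfc (P : H →L[ℂ] H) (r : ℝ) (h : ℝ → ℝ) (hh : ContinuousOn h (spectrum ℝ P)) (x : H) :
    r • (cfc h P x) = cfc (fun t : ℝ => r * h t) P x := by
  rw [cfc_const_mul r h P hh]
  rfl

lemma sub_cfc (P : H →L[ℂ] H) (f g : ℝ → ℝ) (hf : ContinuousOn f (spectrum ℝ P))
    (hg : ContinuousOn g (spectrum ℝ P)) (x : H) :
    cfc f P x - cfc g P x = cfc (fun t => f t - g t) P x := by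
  rw [cfc_sub f g P hf hg]
  rfl

lemma add_cfc (P : H →L[ℂ] H) (f g : ℝ → ℝ) (hf : ContinuousOn f (spectrum ℝ P))
    (hg : ContinuousOn g (spectrum ℝ P)) (x : H) :
    cfc f P x + cfc g P x = cfc (fun t => f t + g t) P x := by
  rw [cfc_add (a := P) f g hf hg]
  rfl

lemma rs (A : H →L[ℂ] H) (r : ℝ) (z : H) : A (r • z) = r • A z :=
  ContinuousLinearMap.map_smul_of_tower A r z

lemma pw_norm (P : H →L[ℂ] H) (hP : IsSelfAdjoint P) {m : ℝ}
    (hsp : ∀ t ∈ spectrum ℝ P, 0 ≤ t ∧ t ≤ m) {s : ℝ} (hs : 0 ≤ s) (x : H) (hm : 0 < m) :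
    ‖pw P s x‖ ≤ m ^ s * ‖x‖ := by
  have e : m ^ s * ‖x‖ = ‖cfc (fun _ : ℝ => m ^ s) P x‖ := by
    rw [cfc_const (m ^ s) P]
    simp only [Algebra.algebraMap_eq_smul_one, _root_.smul_apply, one_apply_eq_self]
    rw [norm_smul, Real.norm_of_nonneg (Real.rpow_nonneg hm.le _)]
  rw [e]
  apply cfc_norm_le P hP _ _ (cont_rpow hs _) continuousOn_const
  intro t ht
  obtain ⟨h0, h1⟩ := hsp t ht
  rw [abs_of_nonneg (Real.rpow_nonneg h0 _), abs_of_nonneg (Real.rpow_nonneg hm.le _)]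
  exact Real.rpow_le_rpow h0 h1 hs

lemma local_est (P : H →L[ℂ] H) (hP : IsSelfAdjoint P) {m : ℝ} (hm : 0 < m)
    (hsp : ∀ t ∈ spectrum ℝ P, 0 ≤ t ∧ t ≤ m) (X : H →L[ℂ] H) {l : ℝ} (hl0 : 0 ≤ l)
    (hl1 : l ≤ 1 / 2)
    (heq : ∀ z, pw P l (X (pw P (1 - l) z)) + pw P (1 - l) (X (pw P l z)) = (2 : ℝ) • X (P z))
    {c δ : ℝ} (hc : 0 < c) (hcm : c ≤ m) (hδ0 : 0 ≤ δ) (hδ : δ ≤ c)
    (h : ℝ → ℝ) (hh : Continuous h) (hsupp : ∀ t, h t ≠ 0 → |t - c| ≤ δ) (x : H) :
    ‖P (X (P (cfc h P x))) - X (P (P (cfc h P x)))‖ ≤ 6 * m * ‖X‖ * δ * ‖cfc h P x‖ := by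
  have hl1' : 0 ≤ 1 - l := by linarith
  set y := cfc h P x with hy
  have hsmall : ∀ (f : ℝ → ℝ) (C : ℝ), Continuous f → 0 ≤ C →
      (∀ t ∈ spectrum ℝ P, |t - c| ≤ δ → |f t| ≤ C) → ‖cfc (fun t => f t * h t) P x‖ ≤ C * ‖y‖ := by
    intro f C hf hC hfC
    have e3 : C * ‖y‖ = ‖cfc (fun t : ℝ => C * h t) P x‖ := by
      rw [← smul_cfc P C h hh.continuousOn, norm_smul, Real.norm_of_nonneg hC]
    rw [e3]
    apply cfc_norm_le P hP (fun t => f t * h t) (fun t => C * h t) (hf.mul hh).continuousOn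
      (continuous_const.mul hh).continuousOn
    intro t ht
    rw [abs_mul, abs_mul]
    by_cases h0 : h t = 0
    · rw [h0]; simp
    · apply mul_le_mul_of_nonneg_right _ (abs_nonneg _)
      exact (hfC t ht (hsupp t h0)).trans (le_abs_self _)
  -- the two error vectors
  have hE : ∀ s : ℝ, 0 ≤ s → s ≤ 1 →
      ‖c • pw P (1 - s) y - (c ^ (1 - s)) • P y‖ ≤ 2 * c ^ (1 - s) * δ * ‖y‖ := by
    intro s hs0 hs1
    have hs1' : 0 ≤ 1 - s := by linarith
    have hcr : Continuous (fun t : ℝ => t ^ (1 - s)) := Real.continuous_rpow_const hs1'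
    have e1 : c • pw P (1 - s) y - (c ^ (1 - s)) • P y
        = cfc (fun t : ℝ => (c * t ^ (1 - s) - c ^ (1 - s) * t) * h t) P x := by
      rw [hy, pw_cfc P hs1' h hh, P_cfc P hP h hh,
        smul_cfc P c (fun t => t ^ (1 - s) * h t) (hcr.mul hh).continuousOn,
        smul_cfc P (c ^ (1 - s)) (fun t => t * h t) (continuous_id.mul hh).continuousOn,
        sub_cfc P (fun t => c * (t ^ (1 - s) * h t)) (fun t => c ^ (1 - s) * (t * h t))
          (continuous_const.mul (hcr.mul hh)).continuousOn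
          (continuous_const.mul (continuous_id.mul hh)).continuousOn]
      congr 2
      ext t
      ring
    rw [e1]
    apply hsmall _ _ ((continuous_const.mul hcr).sub (continuous_const.mul continuous_id))
    · have := Real.rpow_nonneg hc.le (1 - s)
      positivity
    · intro t ht htc
      exact near_ineq hs0 hs1 hc hδ (hsp t ht).1 htc
  have hPc : ‖P y - c • y‖ ≤ δ * ‖y‖ := by
    have e1 : P y - c • y = cfc (fun t : ℝ => (t - c) * h t) P x := by
      rw [hy, P_cfc P hP h hh, smul_cfc P _ _ hh.continuousOn,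
        sub_cfc P (fun t => t * h t) (fun t => c * h t) (continuous_id.mul hh).continuousOn
          (continuous_const.mul hh).continuousOn]
      congr 2
      ext t
      ring
    rw [e1]
    apply hsmall _ _ (continuous_id.sub continuous_const) hδ0
    intro t _ htc
    exact htc
  have hPm : ∀ z, ‖P z‖ ≤ m * ‖z‖ := by
    intro z
    have := pw_norm P hP hsp (s := 1) (by norm_num) z hm
    have e : pw P 1 = P := by
      unfold pw
      simp only [Real.rpow_one]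
      exact cfc_id' ℝ P
    rw [e, Real.rpow_one] at this
    exact this
  set w := X (P y) with hw
  set E1 := c • pw P (1 - l) y - (c ^ (1 - l)) • P y with hE1
  set E2 := c • pw P l y - (c ^ l) • P y with hE2
  have hE1n : ‖E1‖ ≤ 2 * c ^ (1 - l) * δ * ‖y‖ := hE l hl0 (by linarith)
  have hE2n : ‖E2‖ ≤ 2 * c ^ l * δ * ‖y‖ := by
    have := hE (1 - l) hl1' (by linarith)
    simp only [sub_sub_cancel] at this
    exact this
  -- `ψ_c(P) w`
  have hpsi : (c ^ (1 - l)) • pw P l w + (c ^ l) • pw P (1 - l) w - (2 * c) • w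
      = - (pw P l (X E1)) - pw P (1 - l) (X E2) := by
    have h1 := heq y
    have h2 : (2 * c) • w = c • ((2 : ℝ) • X (P y)) := by
      rw [hw, smul_smul, mul_comm]
    rw [h2, ← h1, hE1, hE2, hw]
    simp only [map_sub, rs, smul_add]
    abel
  have hpsi_norm : ‖(c ^ (1 - l)) • pw P l w + (c ^ l) • pw P (1 - l) w - (2 * c) • w‖
      ≤ (m ^ l * c ^ (1 - l) + m ^ (1 - l) * c ^ l) * (2 * ‖X‖ * δ * ‖y‖) := by
    rw [hpsi]
    have a1 : ‖pw P l (X E1)‖ ≤ m ^ l * (‖X‖ * (2 * c ^ (1 - l) * δ * ‖y‖)) := by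
      refine (pw_norm P hP hsp hl0 _ hm).trans ?_
      apply mul_le_mul_of_nonneg_left _ (Real.rpow_nonneg hm.le _)
      exact (X.le_opNorm _).trans (mul_le_mul_of_nonneg_left hE1n (norm_nonneg _))
    have a2 : ‖pw P (1 - l) (X E2)‖ ≤ m ^ (1 - l) * (‖X‖ * (2 * c ^ l * δ * ‖y‖)) := by
      refine (pw_norm P hP hsp hl1' _ hm).trans ?_
      apply mul_le_mul_of_nonneg_left _ (Real.rpow_nonneg hm.le _)
      exact (X.le_opNorm _).trans (mul_le_mul_of_nonneg_left hE2n (norm_nonneg _))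
    calc ‖- (pw P l (X E1)) - pw P (1 - l) (X E2)‖ ≤ ‖- (pw P l (X E1))‖ + ‖pw P (1 - l) (X E2)‖ :=
          norm_sub_le _ _
      _ ≤ m ^ l * (‖X‖ * (2 * c ^ (1 - l) * δ * ‖y‖))
          + m ^ (1 - l) * (‖X‖ * (2 * c ^ l * δ * ‖y‖)) := by
          rw [norm_neg]; exact add_le_add a1 a2
      _ = _ := by ring
  -- invert
  have hinv : c ^ l * ‖P w - c • w‖ ≤
      m ^ l * ‖(c ^ (1 - l)) • pw P l w + (c ^ l) • pw P (1 - l) w - (2 * c) • w‖ := by
    have hid : cfc (fun _ : ℝ => (1 : ℝ)) P = 1 := cfc_const_one ℝ P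
    have hw1 : w = cfc (fun _ : ℝ => (1 : ℝ)) P w := by rw [hid]; rfl
    have cl := cont_rpow hl0 (spectrum ℝ P)
    have cl' := cont_rpow hl1' (spectrum ℝ P)
    have c1 : ContinuousOn (fun _ : ℝ => (1 : ℝ)) (spectrum ℝ P) := continuousOn_const
    have f1 : (c ^ l) • (P w - c • w) = cfc (fun t : ℝ => c ^ l * (t - c)) P w := by
      rw [← smul_cfc P (c ^ l) (fun t => t - c) (continuousOn_id.sub continuousOn_const),
        ← sub_cfc P (fun t => t) (fun _ => c) continuousOn_id continuousOn_const,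
        cfc_id' ℝ P, cfc_const c P]
      simp [Algebra.algebraMap_eq_smul_one]
    have f2 : (m ^ l) • ((c ^ (1 - l)) • pw P l w + (c ^ l) • pw P (1 - l) w - (2 * c) • w)
        = cfc (fun t : ℝ => m ^ l * (c ^ (1 - l) * t ^ l + c ^ l * t ^ (1 - l) - 2 * c)) P w := by
      rw [← smul_cfc P (m ^ l) (fun t : ℝ => c ^ (1 - l) * t ^ l + c ^ l * t ^ (1 - l) - 2 * c)
        (((continuousOn_const.mul cl).add (continuousOn_const.mul cl')).sub continuousOn_const),
        ← sub_cfc P (fun t => c ^ (1 - l) * t ^ l + c ^ l * t ^ (1 - l)) (fun _ => 2 * c)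
          ((continuousOn_const.mul cl).add (continuousOn_const.mul cl')) continuousOn_const,
        ← add_cfc P (fun t => c ^ (1 - l) * t ^ l) (fun t => c ^ l * t ^ (1 - l))
          (continuousOn_const.mul cl) (continuousOn_const.mul cl'),
        ← smul_cfc P _ _ cl, ← smul_cfc P _ _ cl', cfc_const (2 * c) P]
      simp [Algebra.algebraMap_eq_smul_one, pw]
    have g1 : c ^ l * ‖P w - c • w‖ = ‖(c ^ l) • (P w - c • w)‖ := by
      rw [norm_smul, Real.norm_of_nonneg (Real.rpow_nonneg hc.le _)]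
    have g2 : m ^ l * ‖(c ^ (1 - l)) • pw P l w + (c ^ l) • pw P (1 - l) w - (2 * c) • w‖
        = ‖(m ^ l) • ((c ^ (1 - l)) • pw P l w + (c ^ l) • pw P (1 - l) w - (2 * c) • w)‖ := by
      rw [norm_smul, Real.norm_of_nonneg (Real.rpow_nonneg hm.le _)]
    rw [g1, g2, f1, f2]
    apply cfc_norm_le P hP
    · exact continuousOn_const.mul (continuousOn_id.sub continuousOn_const)
    · exact continuousOn_const.mul (((continuousOn_const.mul cl).add
        (continuousOn_const.mul cl')).sub continuousOn_const)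
    · intro t ht
      rw [abs_mul, abs_mul, abs_of_nonneg (Real.rpow_nonneg hc.le _),
        abs_of_nonneg (Real.rpow_nonneg hm.le _)]
      exact psi_ineq hl0 (by linarith) hc hcm (hsp t ht).1 (hsp t ht).2
  have hfin : ‖P w - c • w‖ ≤ 4 * m * ‖X‖ * δ * ‖y‖ := by
    have hcl : 0 < c ^ l := Real.rpow_pos_of_pos hc _
    have hA : m ^ l * (m ^ l * c ^ (1 - l) + m ^ (1 - l) * c ^ l) ≤ 2 * m * c ^ l := by
      have b1 : m ^ l * m ^ (1 - l) = m := by rw [← Real.rpow_add hm]; norm_num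
      have b2 : c ^ (1 - l) = c ^ (1 - 2 * l) * c ^ l := by
        rw [← Real.rpow_add hc]; congr 1; ring
      have b3 : m ^ l * m ^ l * m ^ (1 - 2 * l) = m := by
        rw [← Real.rpow_add hm, ← Real.rpow_add hm]
        rw [show l + l + (1 - 2 * l) = 1 by ring, Real.rpow_one]
      have b4 : c ^ (1 - 2 * l) ≤ m ^ (1 - 2 * l) := Real.rpow_le_rpow hc.le hcm (by linarith)
      have hml : 0 < m ^ l := Real.rpow_pos_of_pos hm _
      calc m ^ l * (m ^ l * c ^ (1 - l) + m ^ (1 - l) * c ^ l)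
          = m ^ l * m ^ l * c ^ (1 - 2 * l) * c ^ l + (m ^ l * m ^ (1 - l)) * c ^ l := by
            rw [b2]; ring
        _ ≤ m ^ l * m ^ l * m ^ (1 - 2 * l) * c ^ l + (m ^ l * m ^ (1 - l)) * c ^ l := by
            gcongr
        _ = 2 * m * c ^ l := by rw [b3, b1]; ring
    have hB : c ^ l * ‖P w - c • w‖ ≤ c ^ l * (4 * m * ‖X‖ * δ * ‖y‖) := by
      calc c ^ l * ‖P w - c • w‖ ≤ m ^ l * ((m ^ l * c ^ (1 - l) + m ^ (1 - l) * c ^ l)
            * (2 * ‖X‖ * δ * ‖y‖)) := hinv.trans (mul_le_mul_of_nonneg_left hpsi_norm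
              (Real.rpow_nonneg hm.le _))
        _ = (m ^ l * (m ^ l * c ^ (1 - l) + m ^ (1 - l) * c ^ l)) * (2 * ‖X‖ * δ * ‖y‖) := by ring
        _ ≤ (2 * m * c ^ l) * (2 * ‖X‖ * δ * ‖y‖) := by
            apply mul_le_mul_of_nonneg_right hA
            positivity
        _ = _ := by ring
    exact le_of_mul_le_mul_left hB hcl
  have hlast : ‖X (P (P y - c • y))‖ ≤ m * ‖X‖ * δ * ‖y‖ := by
    calc ‖X (P (P y - c • y))‖ ≤ ‖X‖ * ‖P (P y - c • y)‖ := X.le_opNorm _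
      _ ≤ ‖X‖ * (m * (δ * ‖y‖)) := by
          apply mul_le_mul_of_nonneg_left _ (norm_nonneg _)
          exact (hPm _).trans (mul_le_mul_of_nonneg_left hPc hm.le)
      _ = _ := by ring
  have hsplit : P (X (P y)) - X (P (P y)) = (P w - c • w) - X (P (P y - c • y)) := by
    rw [hw]
    simp only [map_sub, rs]
    abel
  rw [hsplit]
  calc ‖(P w - c • w) - X (P (P y - c • y))‖ ≤ ‖P w - c • w‖ + ‖X (P (P y - c • y))‖ :=
        norm_sub_le _ _
    _ ≤ 4 * m * ‖X‖ * δ * ‖y‖ + m * ‖X‖ * δ * ‖y‖ := add_le_add hfin hlast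
    _ ≤ 6 * m * ‖X‖ * δ * ‖y‖ := by
        have : 0 ≤ m * ‖X‖ * δ * ‖y‖ := by positivity
        linarith

end

end Pool.Agent.Q93.Alu
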