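import Pool.Agent.Q93.Alu.Core

open scoped InnerProductSpace ComplexOrder

namespace Pool.Agent.Q93.Alu

noncomputable section

variable {H : Type*} [NormedAddCommGroup H] [InnerProductSpace ℂ H] [CompleteSpace H]

/-- ramp functions -/
def ramp (δ : ℝ) (i : ℕ) (t : ℝ) : ℝ := min 1 (max 0 (t / δ - i))

lemma ramp_cont (δ : ℝ) (i : ℕ) : Continuous (ramp δ i) := by
  unfold ramp; fun_prop

lemma ramp_nonneg (δ : ℝ) (i : ℕ) (t : ℝ) : 0 ≤ ramp δ i t :=
  le_min zero_le_one (le_max_left _ _)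

lemma ramp_le_one (δ : ℝ) (i : ℕ) (t : ℝ) : ramp δ i t ≤ 1 := min_le_left _ _

lemma ramp_anti (δ : ℝ) (i : ℕ) (t : ℝ) : ramp δ (i + 1) t ≤ ramp δ i t := by
  unfold ramp
  apply min_le_min le_rfl
  apply max_le_max le_rfl
  push_cast
  linarith

lemma ramp_supp {δ : ℝ} (hδ : 0 < δ) (i : ℕ) (t : ℝ) (h : ramp δ i t - ramp δ (i + 1) t ≠ 0) :
    |t - (i + 1 : ℕ) * δ| ≤ δ := by
  have h1 : (i : ℝ) < t / δ := by
    by_contra hc
    push Not at hc
    apply h
    unfold ramp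
    rw [max_eq_left (by linarith), max_eq_left (by push_cast; linarith)]
    simp
  have h2 : t / δ < (i : ℝ) + 2 := by
    by_contra hc
    push Not at hc
    apply h
    unfold ramp
    rw [min_eq_left, min_eq_left]
    · simp
    · apply le_max_of_le_right; push_cast; linarith
    · apply le_max_of_le_right; linarith
  rw [lt_div_iff₀ hδ] at h1
  rw [div_lt_iff₀ hδ] at h2
  rw [abs_le]
  push_cast
  constructor <;> linarith

lemma re_inner_cfc_mono (P : H →L[ℂ] H) (f g : ℝ → ℝ)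
    (hf : ContinuousOn f (spectrum ℝ P)) (hg : ContinuousOn g (spectrum ℝ P))
    (h : ∀ t ∈ spectrum ℝ P, f t ≤ g t) (x : H) :
    RCLike.re ⟪cfc f P x, x⟫_ℂ ≤ RCLike.re ⟪cfc g P x, x⟫_ℂ := by
  rw [← sub_nonneg, ← map_sub, ← inner_sub_left, sub_cfc P g f hg hf]
  have h4 : 0 ≤ cfc (fun t => g t - f t) P := by
    apply cfc_nonneg
    intro t ht
    have := h t ht
    linarith
  have h5 := (ContinuousLinearMap.nonneg_iff_isPositive _).1 h4
  exact h5.re_inner_nonneg_left x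

lemma sq_norm_le (P : H →L[ℂ] H) (_hP : IsSelfAdjoint P) (f : ℝ → ℝ)
    (hf : ContinuousOn f (spectrum ℝ P))
    (h0 : ∀ t ∈ spectrum ℝ P, 0 ≤ f t) (h1 : ∀ t ∈ spectrum ℝ P, f t ≤ 1) (x : H) :
    ‖cfc f P x‖ ^ 2 ≤ RCLike.re ⟪cfc f P x, x⟫_ℂ := by
  have key : ‖cfc f P x‖ ^ 2 = RCLike.re ⟪cfc (fun t => f t * f t) P x, x⟫_ℂ := by
    rw [cfc_mul f f P, mul_apply_eq_comp]
    have hsa : IsSelfAdjoint (cfc f P) := cfc_predicate f P
    have h1 : ⟪cfc f P (cfc f P x), x⟫_ℂ = ⟪cfc f P x, cfc f P x⟫_ℂ := by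
      have := hsa.isSymmetric (cfc f P x) x
      exact this
    rw [h1, inner_self_eq_norm_sq]
  rw [key]
  apply re_inner_cfc_mono P (fun t => f t * f t) f (hf.mul hf) hf
  intro t ht
  have := h0 t ht
  have := h1 t ht
  nlinarith

/-- The commutation on the range of `P`. -/
theorem comm_P (P : H →L[ℂ] H) (hP : IsSelfAdjoint P) {m : ℝ} (hm : 0 < m)
    (hsp : ∀ t ∈ spectrum ℝ P, 0 ≤ t ∧ t ≤ m) (X : H →L[ℂ] H) {l : ℝ} (hl0 : 0 ≤ l)
    (hl1 : l ≤ 1 / 2)
    (heq : ∀ z, pw P l (X (pw P (1 - l) z)) + pw P (1 - l) (X (pw P l z)) = (2 : ℝ) • X (P z))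
    (x : H) : P (X (P x)) = X (P (P x)) := by
  set D : H →L[ℂ] H := P * X * P - X * P * P with hD
  have hDx : ∀ z, D z = P (X (P z)) - X (P (P z)) := fun z => rfl
  have hPm : ∀ z, ‖P z‖ ≤ m * ‖z‖ := by
    intro z
    have := pw_norm P hP hsp (s := 1) (by norm_num) z hm
    have e : pw P 1 = P := by
      unfold pw
      simp only [Real.rpow_one]
      exact cfc_id' ℝ P
    rw [e, Real.rpow_one] at this
    exact this
  have hbound : ∀ n : ℕ, ‖D x‖ ≤ 6 * m ^ 2 * ‖X‖ * ‖x‖ / √((n : ℝ) + 1)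
      + 2 * m ^ 2 * ‖X‖ * ‖x‖ / ((n : ℝ) + 1) := by
    intro n'
    set n : ℕ := n' + 1 with hn
    have hn0 : (0 : ℝ) < (n : ℝ) := by rw [hn]; positivity
    have hncast : ((n' : ℝ) + 1) = n := by rw [hn]; push_cast; ring
    rw [hncast]
    set δ : ℝ := m / n with hδ
    have hδ0 : 0 < δ := by positivity
    set xi : ℕ → H := fun i => cfc (fun t => ramp δ i t - ramp δ (i + 1) t) P x with hxi
    have hcont : ∀ i, Continuous (fun t => ramp δ i t - ramp δ (i + 1) t) := fun i =>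
      (ramp_cont δ i).sub (ramp_cont δ (i + 1))
    have hxie : ∀ i, xi i = cfc (ramp δ i) P x - cfc (ramp δ (i + 1)) P x := by
      intro i
      rw [sub_cfc P _ _ (ramp_cont δ i).continuousOn (ramp_cont δ (i + 1)).continuousOn]
    have hsum : ∑ i ∈ Finset.range n, xi i = cfc (ramp δ 0) P x - cfc (ramp δ n) P x := by
      simp only [hxie]
      exact Finset.sum_range_sub' (fun i => cfc (ramp δ i) P x) n
    have hlast : cfc (ramp δ n) P x = 0 := by
      have : cfc (ramp δ n) P = cfc (fun _ : ℝ => (0 : ℝ)) P := by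
        apply cfc_congr
        intro t ht
        obtain ⟨h0, h1⟩ := hsp t ht
        unfold ramp
        have : t / δ - n ≤ 0 := by
          rw [hδ, sub_nonpos, div_div_eq_mul_div, div_le_iff₀ hm]
          nlinarith
        change min 1 (max 0 (t / δ - n)) = 0
        rw [max_eq_left this]
        simp
      rw [this, cfc_const_zero]
      rfl
    set x' : H := cfc (fun t => 1 - ramp δ 0 t) P x with hx'
    have hxdec : x = ∑ i ∈ Finset.range n, xi i + x' := by
      rw [hsum, hlast, sub_zero, hx', add_cfc P (ramp δ 0) (fun t => 1 - ramp δ 0 t)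
        (ramp_cont δ 0).continuousOn (continuous_const.sub (ramp_cont δ 0)).continuousOn]
      have : (fun t => ramp δ 0 t + (1 - ramp δ 0 t)) = fun _ => (1 : ℝ) := by
        ext t; ring
      rw [this, cfc_const_one ℝ P]
      rfl
    -- the last piece
    have hPx' : ‖P x'‖ ≤ δ * ‖x‖ := by
      rw [hx', P_cfc P hP (fun t => 1 - ramp δ 0 t) (continuous_const.sub (ramp_cont δ 0))]
      have e : δ * ‖x‖ = ‖cfc (fun _ : ℝ => δ) P x‖ := by
        rw [cfc_const δ P]
        simp only [Algebra.algebraMap_eq_smul_one, _root_.smul_apply, one_apply_eq_self]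
        rw [norm_smul, Real.norm_of_nonneg hδ0.le]
      rw [e]
      apply cfc_norm_le P hP (fun t => t * (1 - ramp δ 0 t)) (fun _ => δ)
        (continuous_id.mul (continuous_const.sub (ramp_cont δ 0))).continuousOn continuousOn_const
      intro t ht
      obtain ⟨h0, h1⟩ := hsp t ht
      rw [abs_of_nonneg hδ0.le, abs_mul, abs_of_nonneg h0,
        abs_of_nonneg (by linarith [ramp_le_one δ 0 t])]
      by_cases htd : t ≤ δ
      · calc t * (1 - ramp δ 0 t) ≤ t * 1 :=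
              mul_le_mul_of_nonneg_left (by linarith [ramp_nonneg δ 0 t]) h0
          _ ≤ δ := by linarith
      · push Not at htd
        have : ramp δ 0 t = 1 := by
          unfold ramp
          rw [min_eq_left]
          apply le_max_of_le_right
          rw [Nat.cast_zero, sub_zero, le_div_iff₀ hδ0]
          linarith
        rw [this]
        simp [hδ0.le]
    have hDx' : ‖D x'‖ ≤ 2 * m * ‖X‖ * δ * ‖x‖ := by
      rw [hDx]
      calc ‖P (X (P x')) - X (P (P x'))‖ ≤ ‖P (X (P x'))‖ + ‖X (P (P x'))‖ := norm_sub_le _ _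
        _ ≤ m * (‖X‖ * (δ * ‖x‖)) + ‖X‖ * (m * (δ * ‖x‖)) := by
            apply add_le_add
            · exact (hPm _).trans (mul_le_mul_of_nonneg_left ((X.le_opNorm _).trans
                (mul_le_mul_of_nonneg_left hPx' (norm_nonneg _))) hm.le)
            · exact (X.le_opNorm _).trans (mul_le_mul_of_nonneg_left ((hPm _).trans
                (mul_le_mul_of_nonneg_left hPx' hm.le)) (norm_nonneg _))
        _ = _ := by ring
    have hDi : ∀ i ∈ Finset.range n, ‖D (xi i)‖ ≤ 6 * m * ‖X‖ * δ * ‖xi i‖ := by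
      intro i hi
      rw [Finset.mem_range] at hi
      have hi1 : (1 : ℝ) ≤ ((i + 1 : ℕ) : ℝ) := by push_cast; linarith [Nat.cast_nonneg (α := ℝ) i]
      have hi2 : ((i + 1 : ℕ) : ℝ) ≤ n := by exact_mod_cast hi
      have hc : 0 < ((i + 1 : ℕ) : ℝ) * δ := by positivity
      have hcm : ((i + 1 : ℕ) : ℝ) * δ ≤ m := by
        calc ((i + 1 : ℕ) : ℝ) * δ ≤ n * δ := mul_le_mul_of_nonneg_right hi2 hδ0.le
          _ = m := by rw [hδ]; field_simp
      have hδc : δ ≤ ((i + 1 : ℕ) : ℝ) * δ := by nlinarith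
      exact local_est P hP hm hsp X hl0 hl1 heq hc hcm hδ0.le hδc _ (hcont i)
        (fun t ht => ramp_supp hδ0 i t ht) x
    -- square sum
    have hsq : ∑ i ∈ Finset.range n, ‖xi i‖ ^ 2 ≤ ‖x‖ ^ 2 := by
      set q : ℕ → ℝ := fun i => RCLike.re ⟪cfc (ramp δ i) P x, x⟫_ℂ with hq
      have h1 : ∀ i ∈ Finset.range n, ‖xi i‖ ^ 2 ≤ q i - q (i + 1) := by
        intro i _
        have h2 := sq_norm_le P hP _ (hcont i).continuousOn
          (fun t _ => by linarith [ramp_anti δ i t])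
          (fun t _ => by linarith [ramp_le_one δ i t, ramp_nonneg δ (i + 1) t]) x
        rw [hq]
        change _ ≤ RCLike.re ⟪cfc (ramp δ i) P x, x⟫_ℂ - RCLike.re ⟪cfc (ramp δ (i + 1)) P x, x⟫_ℂ
        rw [← map_sub, ← inner_sub_left, ← hxie]
        exact h2
      refine (Finset.sum_le_sum h1).trans ?_
      rw [Finset.sum_range_sub']
      have hqn : q n = 0 := by
        rw [hq]
        change RCLike.re ⟪cfc (ramp δ n) P x, x⟫_ℂ = 0
        rw [hlast]; simp
      have hq0 : q 0 ≤ ‖x‖ ^ 2 := by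
        have h3 := re_inner_cfc_mono P (ramp δ 0) (fun _ => 1) (ramp_cont δ 0).continuousOn
          continuousOn_const (fun t _ => ramp_le_one δ 0 t) x
        rw [cfc_const_one ℝ P] at h3
        refine h3.trans ?_
        change RCLike.re ⟪x, x⟫_ℂ ≤ _
        rw [inner_self_eq_norm_sq]
      rw [hqn, sub_zero]
      exact hq0
    have hl1sum : ∑ i ∈ Finset.range n, ‖xi i‖ ≤ √n * ‖x‖ := by
      have h1 : (∑ i ∈ Finset.range n, ‖xi i‖) ^ 2 ≤ n * ∑ i ∈ Finset.range n, ‖xi i‖ ^ 2 := by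
        have := sq_sum_le_card_mul_sum_sq (s := Finset.range n) (f := fun i => ‖xi i‖)
        simpa using this
      have h2 : (∑ i ∈ Finset.range n, ‖xi i‖) ^ 2 ≤ (√n * ‖x‖) ^ 2 := by
        rw [mul_pow, Real.sq_sqrt hn0.le]
        exact h1.trans (mul_le_mul_of_nonneg_left hsq hn0.le)
      exact le_of_sq_le_sq h2 (by positivity)
    calc ‖D x‖ = ‖∑ i ∈ Finset.range n, D (xi i) + D x'‖ := by
          conv_lhs => rw [hxdec, map_add, map_sum]
      _ ≤ ∑ i ∈ Finset.range n, ‖D (xi i)‖ + ‖D x'‖ :=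
          (norm_add_le _ _).trans (add_le_add (norm_sum_le _ _) le_rfl)
      _ ≤ ∑ i ∈ Finset.range n, 6 * m * ‖X‖ * δ * ‖xi i‖ + 2 * m * ‖X‖ * δ * ‖x‖ :=
          add_le_add (Finset.sum_le_sum hDi) hDx'
      _ = 6 * m * ‖X‖ * δ * ∑ i ∈ Finset.range n, ‖xi i‖ + 2 * m * ‖X‖ * δ * ‖x‖ := by
          rw [Finset.mul_sum]
      _ ≤ 6 * m * ‖X‖ * δ * (√n * ‖x‖) + 2 * m * ‖X‖ * δ * ‖x‖ := by
          gcongr
      _ = _ := by
          rw [hδ]
          have hs : √(n : ℝ) * √(n : ℝ) = n := Real.mul_self_sqrt hn0.le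
          have hs0 : √(n : ℝ) ≠ 0 := (Real.sqrt_pos.2 hn0).ne'
          field_simp
          linear_combination (6 * ‖X‖ * ‖x‖) * hs
  have hlim : Filter.Tendsto (fun n : ℕ => 6 * m ^ 2 * ‖X‖ * ‖x‖ / √((n : ℝ) + 1)
      + 2 * m ^ 2 * ‖X‖ * ‖x‖ / ((n : ℝ) + 1)) Filter.atTop (nhds (0 + 0)) := by
    have h1 : Filter.Tendsto (fun n : ℕ => (n : ℝ) + 1) Filter.atTop Filter.atTop :=
      Filter.tendsto_atTop_add_const_right _ _ tendsto_natCast_atTop_atTop
    apply Filter.Tendsto.add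
    · apply Filter.Tendsto.div_atTop tendsto_const_nhds
      exact Real.tendsto_sqrt_atTop.comp h1
    · exact Filter.Tendsto.div_atTop tendsto_const_nhds h1
  rw [add_zero] at hlim
  have h0 : ‖D x‖ ≤ 0 := ge_of_tendsto' hlim hbound
  have h1 : D x = 0 := norm_eq_zero.1 (le_antisymm h0 (norm_nonneg _))
  rw [hDx] at h1
  exact sub_eq_zero.1 h1

end

end Pool.Agent.Q93.Alu
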